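import Pool.Agent.Helper98.QR.StmtsE

/-!
# Row E13 of the QR block E: tubes, degrees and nets of the glueing
-/

namespace QR.H31

noncomputable section

open QR

open Classical

variable {V W : Type}

theorem near_mono (c : V → V → ℕ) {r s : ℕ} (h : r ≤ s) (x y : V) (hx : SPR.Near c r x y) :
    SPR.Near c s x y := by
  induction s, h using Nat.le_induction with
  | base => exact hx
  | succ s _ ih => exact Or.inl ih

theorem near_self (c : V → V → ℕ) (r : ℕ) (x : V) : SPR.Near c r x x :=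
  near_mono c (Nat.zero_le r) x x rfl

/-- paths are mapped to paths -/
theorem near_map {V' : Type} (c : V → V → ℕ) (c' : V' → V' → ℕ) (f : V → V')
    (hf : ∀ x y, c x y ≠ 0 → c' (f x) (f y) ≠ 0) (r : ℕ) (x y : V) (h : SPR.Near c r x y) :
    SPR.Near c' r (f x) (f y) := by
  induction r generalizing y with
  | zero =>
    have h2 : x = y := h
    rw [h2]
    exact near_self c' 0 _
  | succ r ih =>
    rcases h with h | ⟨z, h, h2⟩
    · exact Or.inl (ih y h)
    · exact Or.inr ⟨f z, ih z h, hf z y h2⟩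

/-- the tube around the boundary -/
def NBG (G : BGraph V) (r : ℕ) (v : V) : Prop := ∃ i : ℤ, SPR.Near G.c r (G.b i) v

theorem nbg_b (G : BGraph V) (r : ℕ) (i : ℤ) : NBG G r (G.b i) := ⟨i, near_self _ _ _⟩

theorem nbg_succ (G : BGraph V) (r : ℕ) (v : V) (h : NBG G r v) : NBG G (r + 1) v := by
  obtain ⟨i, hi⟩ := h
  exact ⟨i, Or.inl hi⟩

theorem nbg_step (G : BGraph V) (r : ℕ) (u v : V) (h : NBG G r u) (hc : G.c u v ≠ 0) :
    NBG G (r + 1) v := by
  obtain ⟨i, hi⟩ := h
  exact ⟨i, Or.inr ⟨u, hi, hc⟩⟩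

/-- the tube of the glued graph -/
theorem tube (h7 : ST_E07) (G : BGraph V) (G' : BGraph W) (hR : RegP G G') (h : ℕ) (i : ℤ)
    (v : V ⊕ W) (hv : SPR.Near (glueC G G') h (Sum.inl (G.b i)) v) :
    (∃ u, v = Sum.inl u ∧ NBG G h u) ∨
      (∃ w, v = Sum.inr w ∧ w ∉ Set.range G'.b ∧ NBG G' h w) := by
  obtain ⟨f1, f2, f3, f4, f5, f6, f7, f8, f9, f10, f11⟩ := h7 V W G G' hR
  induction h generalizing v with
  | zero =>
    have h2 : Sum.inl (G.b i) = v := hv
    exact Or.inl ⟨G.b i, h2.symm, nbg_b _ _ _⟩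
  | succ h ih =>
    rcases hv with hv | ⟨z, hz, hc⟩
    · rcases ih v hv with ⟨u, h1, h2⟩ | ⟨w, h1, h2, h3⟩
      · exact Or.inl ⟨u, h1, nbg_succ _ _ _ h2⟩
      · exact Or.inr ⟨w, h1, h2, nbg_succ _ _ _ h3⟩
    · rcases ih z hz with ⟨u', rfl, hu'⟩ | ⟨w', rfl, hw', hn⟩
      · rcases v with u | w
        · refine Or.inl ⟨u, rfl, ?_⟩
          by_cases hu : u ∈ Set.range G.b
          · obtain ⟨j, rfl⟩ := hu
            exact nbg_b _ _ _
          · rw [f3, f10 u u' hu] at hc
            refine nbg_step _ _ u' u hu' ?_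
            rw [hR.symm1]
            exact hc
        · have hw : w ∉ Set.range G'.b := by
            intro hw
            rw [f3, f6 w hw] at hc
            exact hc rfl
          refine Or.inr ⟨w, rfl, hw, ?_⟩
          have hu : u' ∈ Set.range G.b := by
            by_contra hu
            rw [f9 u' w hu] at hc
            exact hc rfl
          obtain ⟨j, rfl⟩ := hu
          rw [f8 j w hw] at hc
          exact nbg_step _ _ _ _ (nbg_b _ _ _) hc
      · rcases v with u | w
        · refine Or.inl ⟨u, rfl, ?_⟩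
          have hu : u ∈ Set.range G.b := by
            by_contra hu
            rw [f3, f9 u w' hu] at hc
            exact hc rfl
          obtain ⟨j, rfl⟩ := hu
          exact nbg_b _ _ _
        · have hw : w ∉ Set.range G'.b := by
            intro hw
            rw [f3, f6 w hw] at hc
            exact hc rfl
          refine Or.inr ⟨w, rfl, hw, ?_⟩
          rw [f7 w' w hw' hw] at hc
          exact nbg_step _ _ _ _ hn hc

/-- edges of the second graph are edges of the glueing -/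
theorem edge2 (h7 : ST_E07) (G : BGraph V) (G' : BGraph W) (hR : RegP G G') (w w' : W)
    (hc : G'.c w w' ≠ 0) : glueC G G' (gluePt G G' w) (gluePt G G' w') ≠ 0 := by
  obtain ⟨f1, f2, f3, f4, f5, f6, f7, f8, f9, f10, f11⟩ := h7 V W G G' hR
  have key : ∀ v : W, v ∈ Set.range G'.b → ∃ i : ℤ, v = G'.b (1 - i) := by
    rintro v ⟨j, rfl⟩
    exact ⟨1 - j, by rw [sub_sub_cancel]⟩
  by_cases h1 : w ∈ Set.range G'.b
  · obtain ⟨i, rfl⟩ := key w h1
    rw [f1]
    by_cases h2 : w' ∈ Set.range G'.b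
    · obtain ⟨j, rfl⟩ := key w' h2
      rw [f1, f11]
      by_cases h3 : G.b (i + 1) = G.b j ∨ G.b (j + 1) = G.b i
      · have h4 : G.c (G.b i) (G.b j) ≠ 0 := by
          rcases h3 with h3 | h3
          · rw [← h3]
            exact hR.adj1 i
          · rw [← h3, hR.symm1]
            exact hR.adj1 j
        omega
      · rw [if_neg h3]
        omega
    · rw [f2 w' h2, f8 i w' h2]
      exact hc
  · rw [f2 w h1]
    by_cases h2 : w' ∈ Set.range G'.b
    · obtain ⟨j, rfl⟩ := key w' h2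
      rw [f1, f3, f8 j w h1, hR.symm2]
      exact hc
    · rw [f2 w' h2, f7 w w' h1 h2]
      exact hc

section Fin

variable [Fintype V] [Fintype W]

theorem deg_fin (c : V → V → ℕ) (x : V) : SPR.deg c x = ∑ y, c x y := by
  unfold SPR.deg
  rw [finsum_eq_sum_of_fintype]

theorem fib {M : Type} [AddCommMonoid M] (G : BGraph V) (G' : BGraph W) (F : W → M) :
    ∑ z : V ⊕ W, ∑ w : W with gluePt G G' w = z, F w = ∑ w, F w :=
  Finset.sum_fiberwise _ _ _

omit [Fintype V] in
theorem fib_le (G : BGraph V) (G' : BGraph W) (F : W → ℕ) (w : W) (z : V ⊕ W)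
    (h : gluePt G G' w = z) : F w ≤ ∑ w : W with gluePt G G' w = z, F w :=
  Finset.single_le_sum (f := F) (fun _ _ => Nat.zero_le _)
    (Finset.mem_filter.mpr ⟨Finset.mem_univ _, h⟩)

/-- degree of a boundary vertex -/
theorem deg_bd (h7 : ST_E07) (G : BGraph V) (G' : BGraph W) (hR : RegP G G') (i : ℤ) :
    SPR.deg (glueC G G') (Sum.inl (G.b i)) ≤
      SPR.deg G.c (G.b i) + SPR.deg G'.c (G'.b (1 - i)) := by
  obtain ⟨f1, f2, f3, f4, f5, f6, f7, f8, f9, f10, f11⟩ := h7 V W G G' hR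
  rw [deg_fin, deg_fin, deg_fin]
  have h1 : ∀ z : V ⊕ W, glueC G G' (Sum.inl (G.b i)) z ≤
      Sum.elim (fun v => G.c (G.b i) v) (fun _ => 0) z +
        ∑ w : W with gluePt G G' w = z, G'.c (G'.b (1 - i)) w := by
    intro z
    rcases z with v | w
    · by_cases hv : v ∈ Set.range G.b
      · obtain ⟨j, rfl⟩ := hv
        have h2 := fib_le G G' (fun w => G'.c (G'.b (1 - i)) w) (G'.b (1 - j)) (Sum.inl (G.b j))
          (f1 j)
        rw [f11, Sum.elim_inl]
        omega
      · rw [f3, f10 v _ hv, hR.symm1, Sum.elim_inl]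
        exact Nat.le_add_right _ _
    · by_cases hw : w ∈ Set.range G'.b
      · rw [f3, f6 w hw]
        exact Nat.zero_le _
      · have h2 := fib_le G G' (fun w => G'.c (G'.b (1 - i)) w) w (Sum.inr w) (f2 w hw)
        rw [f8 i w hw]
        omega
  refine (Finset.sum_le_sum fun z _ => h1 z).trans ?_
  rw [Finset.sum_add_distrib, fib, Fintype.sum_sum_type]
  simp

/-- degree of an interior vertex of the first graph -/
theorem deg_l (h7 : ST_E07) (G : BGraph V) (G' : BGraph W) (hR : RegP G G') (u : V)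
    (hu : u ∉ Set.range G.b) : SPR.deg (glueC G G') (Sum.inl u) = SPR.deg G.c u := by
  obtain ⟨f1, f2, f3, f4, f5, f6, f7, f8, f9, f10, f11⟩ := h7 V W G G' hR
  rw [deg_fin, deg_fin, Fintype.sum_sum_type]
  have h1 : ∑ w : W, glueC G G' (Sum.inl u) (Sum.inr w) = 0 :=
    Finset.sum_eq_zero fun w _ => f9 u w hu
  rw [h1, add_zero]
  exact Finset.sum_congr rfl fun v _ => f10 u v hu

/-- degree of an interior vertex of the second graph -/
theorem deg_r (h7 : ST_E07) (G : BGraph V) (G' : BGraph W) (hR : RegP G G') (w : W)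
    (hw : w ∉ Set.range G'.b) : SPR.deg (glueC G G') (Sum.inr w) ≤ SPR.deg G'.c w := by
  obtain ⟨f1, f2, f3, f4, f5, f6, f7, f8, f9, f10, f11⟩ := h7 V W G G' hR
  rw [deg_fin, deg_fin]
  have h1 : ∀ z : V ⊕ W, glueC G G' (Sum.inr w) z ≤
      ∑ w' : W with gluePt G G' w' = z, G'.c w w' := by
    intro z
    rcases z with v | w'
    · by_cases hv : v ∈ Set.range G.b
      · obtain ⟨j, rfl⟩ := hv
        have h2 := fib_le G G' (fun w' => G'.c w w') (G'.b (1 - j)) (Sum.inl (G.b j)) (f1 j)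
        rw [f3, f8 j w hw, hR.symm2]
        exact h2
      · rw [f3, f9 v w hv]
        exact Nat.zero_le _
    · by_cases hw' : w' ∈ Set.range G'.b
      · rw [f3, f6 w' hw']
        exact Nat.zero_le _
      · have h2 := fib_le G G' (fun w' => G'.c w w') w' (Sum.inr w') (f2 w' hw')
        rw [f7 w w' hw hw']
        exact h2
  refine (Finset.sum_le_sum fun z _ => h1 z).trans ?_
  rw [fib]

end Fin

/-! ### exponential moments -/

theorem exp_eq (d : ℕ) : Real.exp (Real.log (13 / 12) / 2 * (d : ℝ)) =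
    Real.exp (Real.log (13 / 12) / 2) ^ d := by
  rw [mul_comm, Real.exp_nat_mul]

theorem q_sq : Real.exp (Real.log (13 / 12) / 2) ^ 2 = 13 / 12 := by
  rw [← Real.exp_nat_mul, Nat.cast_ofNat, mul_div_cancel₀ _ (by norm_num), Real.exp_log]
  norm_num

theorem q_one : 1 ≤ Real.exp (Real.log (13 / 12) / 2) := by
  refine Real.one_le_exp ?_
  have := Real.log_nonneg (show (1 : ℝ) ≤ 13 / 12 by norm_num)
  linarith

theorem exp_le (d e : ℕ) (h : d ≤ e) :
    Real.exp (Real.log (13 / 12) / 2 * (d : ℝ)) ≤ (13 / 12 : ℝ) ^ e := by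
  have h1 := q_one
  have h2 := q_sq
  rw [exp_eq]
  generalize Real.exp (Real.log (13 / 12) / 2) = q at h1 h2 ⊢
  rw [← h2, ← pow_mul]
  exact pow_le_pow_right₀ h1 (by omega)

theorem exp_le2 (d e f : ℕ) (h : d ≤ e + f) :
    Real.exp (Real.log (13 / 12) / 2 * (d : ℝ)) ≤ (13 / 12 : ℝ) ^ e + (13 / 12 : ℝ) ^ f := by
  have h1 := q_one
  have h2 := q_sq
  rw [exp_eq]
  generalize Real.exp (Real.log (13 / 12) / 2) = q at h1 h2 ⊢
  refine (pow_le_pow_right₀ h1 h).trans ?_
  rw [← h2, ← pow_mul, ← pow_mul, pow_add, mul_comm 2 e, mul_comm 2 f, pow_mul, pow_mul]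
  nlinarith [sq_nonneg (q ^ e - q ^ f), sq_nonneg (q ^ e), sq_nonneg (q ^ f)]

theorem finsum_ite [Fintype V] (P : V → Prop) (f : V → ℝ) :
    ∑ᶠ (v) (_ : P v), f v = ∑ v, if P v then f v else 0 := by
  rw [finsum_eq_sum_of_fintype]
  refine Finset.sum_congr rfl fun v _ => ?_
  rw [finsum_eq_if]

/-- the exponential moment of the degrees in the tube of the glueing -/
theorem moment (h7 : ST_E07) [Fintype V] [Fintype W] (G : BGraph V) (G' : BGraph W)
    (hR : RegP G G') (S : Finset (V ⊕ W)) (hS : ∀ v, v ∈ S → ∃ i : ℤ, v = Sum.inl (G.b i))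
    (h : ℕ) :
    ∑ᶠ (v) (_ : SPR.NearSet (glueC G G') h S v),
      Real.exp (Real.log (13 / 12) / 2 * SPR.deg (glueC G G') v) ≤
    2 * ((∑ᶠ (v : V) (_ : NBG G h v), (13 / 12 : ℝ) ^ (SPR.deg G.c v)) +
      ∑ᶠ (v : W) (_ : NBG G' h v), (13 / 12 : ℝ) ^ (SPR.deg G'.c v)) := by
  obtain ⟨f1, f2, f3, f4, f5, f6, f7, f8, f9, f10, f11⟩ := h7 V W G G' hR
  rw [finsum_ite, finsum_ite, finsum_ite, Fintype.sum_sum_type]
  set F : W → ℝ := fun w => if NBG G' h w then (13 / 12 : ℝ) ^ (SPR.deg G'.c w) else 0 with hF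
  have hF0 : ∀ w, 0 ≤ F w := by
    intro w
    rw [hF]
    dsimp only
    split_ifs
    · positivity
    · exact le_refl _
  set E : V → ℝ := fun u => if NBG G h u then (13 / 12 : ℝ) ^ (SPR.deg G.c u) else 0 with hE
  have hE0 : ∀ w, 0 ≤ E w := by
    intro w
    rw [hE]
    dsimp only
    split_ifs
    · positivity
    · exact le_refl _
  have htube : ∀ v, SPR.NearSet (glueC G G') h S v → (∃ u, v = Sum.inl u ∧ NBG G h u) ∨
      (∃ w, v = Sum.inr w ∧ w ∉ Set.range G'.b ∧ NBG G' h w) := by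
    rintro v ⟨s, hs, hn⟩
    obtain ⟨i, rfl⟩ := hS s hs
    exact tube h7 G G' hR h i v hn
  have hr : ∀ w : W, (if SPR.NearSet (glueC G G') h S (Sum.inr w) then
      Real.exp (Real.log (13 / 12) / 2 * SPR.deg (glueC G G') (Sum.inr w)) else 0) ≤ F w := by
    intro w
    split_ifs with h1
    · rcases htube _ h1 with ⟨u, h2, -⟩ | ⟨w', h2, h3, h4⟩
      · exact absurd h2 (by simp)
      · have h5 : w = w' := Sum.inr.inj h2
        subst h5
        rw [hF]
        dsimp only
        rw [if_pos h4]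
        exact exp_le _ _ (deg_r h7 G G' hR w h3)
    · exact hF0 w
  have hl : ∀ u : V, (if SPR.NearSet (glueC G G') h S (Sum.inl u) then
      Real.exp (Real.log (13 / 12) / 2 * SPR.deg (glueC G G') (Sum.inl u)) else 0) ≤
      E u + ∑ w : W with gluePt G G' w = Sum.inl u, F w := by
    intro u
    have hs : 0 ≤ ∑ w : W with gluePt G G' w = Sum.inl u, F w :=
      Finset.sum_nonneg fun w _ => hF0 w
    split_ifs with h1
    · rcases htube _ h1 with ⟨u', h2, h3⟩ | ⟨w', h2, -, -⟩
      · have h5 : u = u' := Sum.inl.inj h2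
        subst h5
        have hEu : E u = (13 / 12 : ℝ) ^ (SPR.deg G.c u) := by
          rw [hE]
          dsimp only
          rw [if_pos h3]
        by_cases hu : u ∈ Set.range G.b
        · obtain ⟨i, rfl⟩ := hu
          have h6 : F (G'.b (1 - i)) ≤ ∑ w : W with gluePt G G' w = Sum.inl (G.b i), F w :=
            Finset.single_le_sum (f := F) (fun w _ => hF0 w)
              (Finset.mem_filter.mpr ⟨Finset.mem_univ _, f1 i⟩)
          have h7' : F (G'.b (1 - i)) = (13 / 12 : ℝ) ^ (SPR.deg G'.c (G'.b (1 - i))) := by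
            rw [hF]
            dsimp only
            rw [if_pos (nbg_b G' h (1 - i))]
          have h8 := exp_le2 _ _ _ (deg_bd h7 G G' hR i)
          rw [hEu]
          linarith
        · rw [hEu]
          have h8 := exp_le _ _ (le_of_eq (deg_l h7 G G' hR u hu))
          linarith
      · exact absurd h2 (by simp)
    · exact add_nonneg (hE0 u) hs
  have h3 : ∑ u : V, ∑ w : W with gluePt G G' w = Sum.inl u, F w ≤ ∑ w, F w := by
    rw [← fib G G' F, Fintype.sum_sum_type]
    refine le_add_of_nonneg_right ?_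
    exact Finset.sum_nonneg fun z _ => Finset.sum_nonneg fun w _ => hF0 w
  have h4 := Finset.sum_le_sum fun (u : V) (_ : u ∈ Finset.univ) => hl u
  have h5 := Finset.sum_le_sum fun (w : W) (_ : w ∈ Finset.univ) => hr w
  rw [Finset.sum_add_distrib] at h4
  have h6 : 0 ≤ ∑ u, E u := Finset.sum_nonneg fun u _ => hE0 u
  linarith

/-- nets of the glueing -/
theorem nets (h7 : ST_E07) [Fintype V] [Fintype W] (G : BGraph V) (G' : BGraph W)
    (hR : RegP G G') (S : Finset (V ⊕ W)) (hS : ∀ v, v ∈ S → ∃ i : ℤ, v = Sum.inl (G.b i))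
    (s r : ℕ) (N1 : Set V) (N2 : Set W)
    (h1 : ∀ v, NBG G s v → ∃ z ∈ N1, SPR.Near G.c r v z)
    (h2 : ∀ v, NBG G' s v → ∃ z ∈ N2, SPR.Near G'.c r v z) :
    ∃ Net : Finset (V ⊕ W), Net.card ≤ Nat.card N1 + Nat.card N2 ∧
      ∀ v, SPR.NearSet (glueC G G') s S v → ∃ z ∈ Net, SPR.Near (glueC G G') r v z := by
  obtain ⟨f1, f2, f3, f4, f5, f6, f7, f8, f9, f10, f11⟩ := h7 V W G G' hR
  refine ⟨N1.toFinset.image Sum.inl ∪ N2.toFinset.image (gluePt G G'), ?_, ?_⟩
  · refine (Finset.card_union_le _ _).trans (add_le_add ?_ ?_)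
    · refine Finset.card_image_le.trans ?_
      rw [Set.toFinset_card, Nat.card_eq_fintype_card]
    · refine Finset.card_image_le.trans ?_
      rw [Set.toFinset_card, Nat.card_eq_fintype_card]
  · rintro v ⟨t, ht, hn⟩
    obtain ⟨i, rfl⟩ := hS t ht
    rcases tube h7 G G' hR s i v hn with ⟨u, rfl, hu⟩ | ⟨w, rfl, hw, hn'⟩
    · obtain ⟨z, hz, hz2⟩ := h1 u hu
      refine ⟨Sum.inl z, Finset.mem_union_left _ (Finset.mem_image_of_mem _
        (Set.mem_toFinset.mpr hz)), ?_⟩
      refine near_map G.c (glueC G G') Sum.inl (fun a b hab => ?_) r u z hz2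
      have := f5 a b
      omega
    · obtain ⟨z, hz, hz2⟩ := h2 w hn'
      refine ⟨gluePt G G' z, Finset.mem_union_right _ (Finset.mem_image_of_mem _
        (Set.mem_toFinset.mpr hz)), ?_⟩
      rw [← f2 w hw]
      exact near_map G'.c (glueC G G') (gluePt G G') (fun a b hab => edge2 h7 G G' hR a b hab)
        r w z hz2

/-- the number of boundary vertices -/
theorem card_bd [Fintype V] (G : BGraph V) (p : ℕ) (hp : 2 ≤ p)
    (hb : ∀ i j : ℤ, G.b i = G.b j ↔ (2 * (p : ℤ)) ∣ i - j) (S : Finset (V ⊕ W))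
    (hS : ∀ v, v ∈ S ↔ ∃ i : ℤ, v = Sum.inl (G.b i)) : S.card = 2 * p := by
  have h1 : S = (Finset.range (2 * p)).image (fun k : ℕ => (Sum.inl (G.b (k : ℤ)) : V ⊕ W)) := by
    ext v
    rw [hS, Finset.mem_image]
    constructor
    · rintro ⟨i, rfl⟩
      have h2 : 0 ≤ i % (2 * (p : ℤ)) := Int.emod_nonneg _ (by omega)
      have h3 : i % (2 * (p : ℤ)) < 2 * (p : ℤ) := Int.emod_lt_of_pos _ (by omega)
      refine ⟨(i % (2 * (p : ℤ))).toNat, ?_, ?_⟩
      · rw [Finset.mem_range]
        omega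
      · congr 1
        rw [hb, Int.toNat_of_nonneg h2]
        have h4 : i % (2 * (p : ℤ)) - i = (2 * (p : ℤ)) * (-(i / (2 * (p : ℤ)))) := by
          have := Int.emod_add_mul_ediv i (2 * (p : ℤ))
          linarith
        rw [h4]
        exact dvd_mul_right _ _
    · rintro ⟨k, -, rfl⟩
      exact ⟨k, rfl⟩
  rw [h1, Finset.card_image_of_injOn, Finset.card_range]
  intro k hk l hl hkl
  have h2 : G.b (k : ℤ) = G.b (l : ℤ) := Sum.inl.inj hkl
  rw [hb] at h2
  rw [Finset.mem_coe, Finset.mem_range] at hk hl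
  have h3 := Int.eq_zero_of_abs_lt_dvd h2 (by
    rw [abs_lt]
    constructor <;> omega)
  omega

theorem st_E13 (h5 : ST_E05) (h7 : ST_E07) : ST_E13 := by
  intro n p hn hp x hx y hy S hS
  obtain ⟨-, hb, hR⟩ := h5 n p hp x hx
  have hR' := hR y hy
  have _ : Fintype x.1.Vert := Fintype.ofFinite _
  have _ : Fintype y.1.Vert := Fintype.ofFinite _
  refine ⟨card_bd (W := y.1.Vert) (x.1.bg x.2) p hp hb S hS, fun h => ?_, ?_⟩
  · exact moment h7 (x.1.bg x.2) (y.1.bg y.2) hR' S (fun v hv => (hS v).mp hv) h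
  · intro s r N1 N2 h1 h2
    exact nets h7 (x.1.bg x.2) (y.1.bg y.2) hR' S (fun v hv => (hS v).mp hv) s r N1 N2 h1 h2

end

end QR.H31

namespace QR

/-- E13: tubes, degrees and nets of the glueing -/
theorem st_E13 (h5 : ST_E05) (h7 : ST_E07) (_h1 : ST_S01) : ST_E13 := H31.st_E13 h5 h7

end QR
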